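import Pool.Agent.Run7.h223.B2P

set_option autoImplicit false

/-!
# Poonen's strengthening of the union-closed sets conjecture for families of breadth two

The breadth of a union-closed family is the least `b` such that every union of finitely many members is the union of at
most `b` of them.  If a separating union-closed family of breadth at most two is not a power set, then some element
lies in strictly more than half of the members.

Proof.  Some element lies in at least two thirds of the nonempty members (`Run7.h223.B2`), which is strictly more than
half of all the members unless there are at most four members; these cases are treated by hand (`Run7.h223.B2P`).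
-/

namespace Pool.Agent.Results.MP_75f39d_co.BreadthTwo

/-- Let `F` be a nonempty finite union-closed family of finite sets which separates the points of its universe and is not
the power set of its universe.  Suppose that, of any three members, one is contained in the union of the other two.
Then some element of the universe lies in strictly more than half of the members. -/
theorem result {α : Type*} [DecidableEq α] (F : Finset (Finset α)) (hne : F.Nonempty)
    (hF : ∀ X ∈ F, ∀ Y ∈ F, X ∪ Y ∈ F)
    (hsep : ∀ x ∈ F.sup id, ∀ y ∈ F.sup id, x ≠ y → ∃ S ∈ F, ¬ (x ∈ S ↔ y ∈ S))
    (hpow : F ≠ (F.sup id).powerset)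
    (hB : ∀ X ∈ F, ∀ Y ∈ F, ∀ Z ∈ F, X ⊆ Y ∪ Z ∨ Y ⊆ X ∪ Z ∨ Z ⊆ X ∪ Y) :
    ∃ x ∈ F.sup id, F.card < 2 * (F.filter (fun A => x ∈ A)).card :=
  Run7.h223.B2P.strict F hne hF hsep hpow hB

end Pool.Agent.Results.MP_75f39d_co.BreadthTwo
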