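import Pool.Agent.Results.MP_9bc572_co.HellyGenerators

set_option autoImplicit false

/-!
# Poonen's strict inequality for families generated by complement-closed Helly families

Let `H` be a family of subsets of a finite set `X` which contains with every member its complement
and has the Helly property (every nonempty subfamily whose members meet pairwise has a common
element), and let `unions H` be the union-closed family of all unions of members of `H`.  The
families `H` are the families of halfspaces of the finite median algebras (median graphs, solution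
sets of 2-SAT formulas).

Unless `H` is contained in `{∅, X, A, Aᶜ}` for some set `A`, every nonempty member of `H` contains an
element that lies in strictly more than half of the members of `unions H`.  In particular Poonen's
question has a positive answer for all these families `unions H`.

The weak inequality is `MP_9bc572_co.HellyGenerators`.
-/

namespace Pool.Agent.Results.MP_75f39d_co.HellyGenerators

open Finset Pool.Agent.Results.MP_9bc572_co.HellyGenerators

/-- strict form of the inequality for the intersections of members of `H` -/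
lemma strict {X : Type} [DecidableEq X] (Y : Finset X) (H : Finset (Finset X))
    (hsub : ∀ G ∈ H, G ⊆ Y) (hcomp : ∀ G ∈ H, Y \ G ∈ H) (hh : Helly H)
    (hex4 : ∀ A, ∃ K ∈ H, K ≠ ∅ ∧ K ≠ Y ∧ K ≠ A ∧ K ≠ Y \ A) (G : Finset X) (hG : G ∈ H)
    (hGne : G.Nonempty) :
    ∃ x ∈ G, 2 * ((conv Y H).filter (fun C => x ∈ C)).card < (conv Y H).card := by
  have hex : ∃ K ∈ H.filter (fun K : Finset X => K.Nonempty ∧ K ⊆ G),
      ∀ K' ∈ H.filter (fun K : Finset X => K.Nonempty ∧ K ⊆ G), K.card ≤ K'.card :=
    Finset.exists_min_image _ _ ⟨G, by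
      rw [Finset.mem_filter]; exact ⟨hG, hGne, Finset.Subset.refl _⟩⟩
  obtain ⟨H0, hH0, hmin⟩ := hex
  rw [Finset.mem_filter] at hH0
  obtain ⟨hH0, hH0ne, hH0G⟩ := hH0
  have hmin' : ∀ K ∈ H, K.Nonempty → K ⊆ H0 → K = H0 := by
    intro K hK hKne hKs
    apply Finset.eq_of_subset_of_card_le hKs
    exact hmin K (by rw [Finset.mem_filter]; exact ⟨hK, hKne, hKs.trans hH0G⟩)
  -- the trace on `H0`
  let H' : Finset (Finset X) := H.image (fun K => K ∩ H0)
  have hH'mem : ∀ {A : Finset X}, A ∈ H' ↔ ∃ K ∈ H, K ∩ H0 = A := by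
    intro A; simp [H']
  obtain ⟨x, hx, hxle⟩ := main H0.card H0 H' rfl
    (by
      intro A hA
      obtain ⟨K, _, rfl⟩ := hH'mem.1 hA
      exact Finset.inter_subset_right)
    (by
      intro A hA
      obtain ⟨K, hK, rfl⟩ := hH'mem.1 hA
      refine hH'mem.2 ⟨Y \ K, hcomp K hK, ?_⟩
      ext z
      simp only [Finset.mem_inter, Finset.mem_sdiff]
      constructor
      · rintro ⟨⟨_, h1⟩, h2⟩; exact ⟨h2, fun h => h1 h.1⟩
      · rintro ⟨h1, h2⟩; exact ⟨⟨hsub H0 hH0 h1, fun h => h2 ⟨h, h1⟩⟩, h1⟩)
    (by
      intro S hS hSne hpair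
      obtain ⟨z, hz⟩ := hh (insert H0 (H.filter (fun K => K ∩ H0 ∈ S)))
        (by
          intro K hK
          rw [Finset.mem_insert, Finset.mem_filter] at hK
          rcases hK with rfl | hK
          · exact hH0
          · exact hK.1)
        ⟨H0, Finset.mem_insert_self _ _⟩
        (by
          have key : ∀ K, K ∈ H → K ∩ H0 ∈ S → (K ∩ H0).Nonempty := by
            intro K _ hKS
            have := hpair _ hKS _ hKS
            rwa [Finset.inter_self] at this
          intro A hA B hB
          rw [Finset.mem_insert, Finset.mem_filter] at hA hB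
          rcases hA with rfl | ⟨hA, hAS⟩
          · rcases hB with rfl | ⟨hB, hBS⟩
            · rw [Finset.inter_self]; exact hH0ne
            · rw [Finset.inter_comm]; exact key B hB hBS
          · rcases hB with rfl | ⟨hB, hBS⟩
            · exact key A hA hAS
            · refine (hpair _ hAS _ hBS).mono ?_
              intro w hw
              simp only [Finset.mem_inter] at hw ⊢
              exact ⟨hw.1.1, hw.2.1⟩)
      refine ⟨z, fun A hA => ?_⟩
      obtain ⟨K, hK, rfl⟩ := hH'mem.1 (hS hA)
      rw [Finset.mem_inter]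
      refine ⟨hz K ?_, hz H0 (Finset.mem_insert_self _ _)⟩
      rw [Finset.mem_insert, Finset.mem_filter]
      exact Or.inr ⟨hK, hA⟩)
    H0 (hH'mem.2 ⟨H0, hH0, Finset.inter_self _⟩) hH0ne
  refine ⟨x, hH0G hx, ?_⟩
  have hconvH0 : (conv Y H).filter (fun C => C ⊆ H0) = conv H0 H' := by
    ext C
    rw [Finset.mem_filter, mem_conv, mem_conv]
    constructor
    · rintro ⟨⟨_, hC⟩, hCH⟩
      refine ⟨hCH, fun y hy hyC => ?_⟩
      obtain ⟨K, hK, hCK, hyK⟩ := hC y (hsub H0 hH0 hy) hyC
      exact ⟨K ∩ H0, hH'mem.2 ⟨K, hK, rfl⟩, Finset.subset_inter hCK hCH,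
        fun h => hyK (Finset.mem_inter.1 h).1⟩
    · rintro ⟨hCH, hC⟩
      refine ⟨⟨hCH.trans (hsub H0 hH0), fun y hy hyC => ?_⟩, hCH⟩
      by_cases hyH : y ∈ H0
      · obtain ⟨A, hA, hCA, hyA⟩ := hC y hyH hyC
        obtain ⟨K, hK, rfl⟩ := hH'mem.1 hA
        exact ⟨K, hK, hCA.trans Finset.inter_subset_left,
          fun h => hyA (Finset.mem_inter.2 ⟨h, hyH⟩)⟩
      · exact ⟨H0, hH0, hCH, hyH⟩
  -- a further member that does not contain `x`
  obtain ⟨K₀, hK₀, hxK₀, hK₀ne, hK₀H0⟩ : ∃ K ∈ H, x ∉ K ∧ K.Nonempty ∧ K ≠ Y \ H0 := by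
    obtain ⟨K, hK, k1, k2, k3, k4⟩ := hex4 H0
    by_cases hxK : x ∈ K
    · refine ⟨Y \ K, hcomp K hK, fun h => (Finset.mem_sdiff.1 h).2 hxK, ?_, ?_⟩
      · rw [Finset.nonempty_iff_ne_empty]
        intro h
        rw [Finset.sdiff_eq_empty_iff_subset] at h
        exact k2 (Finset.Subset.antisymm (hsub K hK) h)
      · intro h
        apply k3
        have h1 : Y \ (Y \ K) = Y \ (Y \ H0) := by rw [h]
        rwa [Finset.sdiff_sdiff_eq_self (hsub K hK), Finset.sdiff_sdiff_eq_self (hsub H0 hH0)]
          at h1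
    · exact ⟨K, hK, hxK, Finset.nonempty_iff_ne_empty.2 k1, k4⟩
  have hK₀conv : K₀ ∈ conv Y H := by
    rw [mem_conv]
    exact ⟨hsub K₀ hK₀, fun y _ hy => ⟨K₀, hK₀, Finset.Subset.refl _, hy⟩⟩
  have hK₀not : ¬ K₀ ⊆ H0 := by
    intro h
    have := hmin' K₀ hK₀ hK₀ne h
    exact hxK₀ (this ▸ hx)
  -- `K₀` is not of the form `C \ H0`
  have hK₀im : ∀ C ∈ conv Y H, x ∈ C → C \ H0 ≠ K₀ := by
    intro C hC hxC heq
    rw [mem_conv] at hC
    have hdis : K₀ ⊆ Y \ H0 := by
      rw [← heq]
      exact Finset.sdiff_subset_sdiff hC.1 (Finset.Subset.refl _)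
    obtain ⟨v, hv⟩ := hK₀ne
    obtain ⟨z, hz⟩ := hh (insert (Y \ K₀) (insert (Y \ H0) (H.filter (fun L => C ⊆ L))))
      (by
        intro L hL
        rw [Finset.mem_insert, Finset.mem_insert, Finset.mem_filter] at hL
        rcases hL with rfl | rfl | hL
        · exact hcomp K₀ hK₀
        · exact hcomp H0 hH0
        · exact hL.1)
      ⟨_, Finset.mem_insert_self _ _⟩
      (by
        have e1 : ((Y \ K₀) ∩ (Y \ H0)).Nonempty := by
          by_contra hemp
          rw [Finset.not_nonempty_iff_eq_empty] at hemp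
          apply hK₀H0
          apply Finset.Subset.antisymm hdis
          intro t ht
          by_contra htK
          have : t ∈ (Y \ K₀) ∩ (Y \ H0) :=
            Finset.mem_inter.2 ⟨Finset.mem_sdiff.2 ⟨(Finset.mem_sdiff.1 ht).1, htK⟩, ht⟩
          rw [hemp] at this
          simp at this
        have e2 : ∀ L, C ⊆ L → ((Y \ K₀) ∩ L).Nonempty := fun L hL =>
          ⟨x, Finset.mem_inter.2 ⟨Finset.mem_sdiff.2 ⟨hC.1 hxC, hxK₀⟩, hL hxC⟩⟩
        have hvC : v ∈ C := by
          have : v ∈ C \ H0 := heq ▸ hv
          exact (Finset.mem_sdiff.1 this).1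
        have e3 : ∀ L, C ⊆ L → ((Y \ H0) ∩ L).Nonempty := fun L hL =>
          ⟨v, Finset.mem_inter.2 ⟨hdis hv, hL hvC⟩⟩
        intro A hA B hB
        rw [Finset.mem_insert, Finset.mem_insert, Finset.mem_filter] at hA hB
        rcases hA with rfl | rfl | hA
        · rcases hB with rfl | rfl | hB
          · rw [Finset.inter_self]
            exact ⟨x, Finset.mem_sdiff.2 ⟨hC.1 hxC, hxK₀⟩⟩
          · exact e1
          · exact e2 _ hB.2
        · rcases hB with rfl | rfl | hB
          · rw [Finset.inter_comm]; exact e1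
          · rw [Finset.inter_self]
            exact ⟨v, hdis hv⟩
          · exact e3 _ hB.2
        · rcases hB with rfl | rfl | hB
          · rw [Finset.inter_comm]; exact e2 _ hA.2
          · rw [Finset.inter_comm]; exact e3 _ hA.2
          · exact ⟨x, Finset.mem_inter.2 ⟨hA.2 hxC, hB.2 hxC⟩⟩)
    have hz1 : z ∈ Y \ K₀ := hz _ (Finset.mem_insert_self _ _)
    have hz2 : z ∈ Y \ H0 := hz _ (Finset.mem_insert_of_mem (Finset.mem_insert_self _ _))
    have hzC : z ∈ C := by
      by_contra hzC
      obtain ⟨L, hL, hCL, hzL⟩ := hC.2 z (Finset.mem_sdiff.1 hz1).1 hzC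
      apply hzL
      apply hz
      rw [Finset.mem_insert, Finset.mem_insert, Finset.mem_filter]
      exact Or.inr (Or.inr ⟨hL, hCL⟩)
    have : z ∈ K₀ := heq ▸ Finset.mem_sdiff.2 ⟨hzC, (Finset.mem_sdiff.1 hz2).2⟩
    exact (Finset.mem_sdiff.1 hz1).2 this
  -- the members not inside `H0`
  have hinj : ((conv Y H).filter (fun C => ¬ C ⊆ H0 ∧ x ∈ C)).card <
      ((conv Y H).filter (fun C => ¬ C ⊆ H0 ∧ x ∉ C)).card := by
    have hK₀mem : K₀ ∈ (conv Y H).filter (fun C => ¬ C ⊆ H0 ∧ x ∉ C) := by
      rw [Finset.mem_filter]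
      exact ⟨hK₀conv, hK₀not, hxK₀⟩
    have hle : ((conv Y H).filter (fun C => ¬ C ⊆ H0 ∧ x ∈ C)).card ≤
        (((conv Y H).filter (fun C => ¬ C ⊆ H0 ∧ x ∉ C)).erase K₀).card := by
      apply Finset.card_le_card_of_injOn (fun C => C \ H0)
      · intro C hC
        rw [Finset.mem_coe, Finset.mem_filter] at hC
        have hC' := hC
        rw [mem_conv] at hC
        obtain ⟨⟨hCY, hC⟩, hCH, hxC⟩ := hC
        rw [Finset.mem_coe, Finset.mem_erase, Finset.mem_filter, mem_conv]
        refine ⟨hK₀im C hC'.1 hxC, ⟨Finset.sdiff_subset.trans hCY, fun y hy hyC => ?_⟩, ?_, ?_⟩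
        · by_cases hyC' : y ∈ C
          · refine ⟨Y \ H0, hcomp H0 hH0, Finset.sdiff_subset_sdiff hCY (Finset.Subset.refl _), ?_⟩
            intro h
            rw [Finset.mem_sdiff] at h
            exact hyC (Finset.mem_sdiff.2 ⟨hyC', h.2⟩)
          · obtain ⟨K, hK, hCK, hyK⟩ := hC y hy hyC'
            exact ⟨K, hK, Finset.sdiff_subset.trans hCK, hyK⟩
        · intro h
          apply hCH
          intro w hw
          by_contra hwH
          exact hwH (h (Finset.mem_sdiff.2 ⟨hw, hwH⟩))
        · intro h
          exact (Finset.mem_sdiff.1 h).2 hx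
      · -- injectivity, by the Helly property
        have key : ∀ C C' : Finset X, C ∈ conv Y H → C' ∈ conv Y H → ¬ C ⊆ H0 →
            x ∈ C → x ∈ C' → C \ H0 = C' \ H0 → C ⊆ C' := by
          intro C C' hC hC' hCH hxC hxC' heq w hw
          rw [mem_conv] at hC hC'
          by_cases hwH : w ∈ H0
          swap
          · have : w ∈ C' \ H0 := heq ▸ Finset.mem_sdiff.2 ⟨hw, hwH⟩
            exact (Finset.mem_sdiff.1 this).1
          by_contra hwC'
          obtain ⟨K, hK, hCK, hwK⟩ := hC'.2 w (hC.1 hw) hwC'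
          obtain ⟨v, hv, hvH⟩ : ∃ v ∈ C, v ∉ H0 := by
            by_contra hcon
            push Not at hcon
            exact hCH hcon
          have hwY : w ∈ Y := hC.1 hw
          obtain ⟨z, hz⟩ := hh (insert (Y \ K) (insert (Y \ H0) (H.filter (fun L => C ⊆ L))))
            (by
              intro L hL
              rw [Finset.mem_insert, Finset.mem_insert, Finset.mem_filter] at hL
              rcases hL with rfl | rfl | hL
              · exact hcomp K hK
              · exact hcomp H0 hH0
              · exact hL.1)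
            ⟨_, Finset.mem_insert_self _ _⟩
            (by
              have e1 : ((Y \ K) ∩ (Y \ H0)).Nonempty := by
                by_contra hemp
                rw [Finset.not_nonempty_iff_eq_empty] at hemp
                have hs : Y \ K ⊆ H0 := by
                  intro t ht
                  by_contra htH
                  have : t ∈ (Y \ K) ∩ (Y \ H0) :=
                    Finset.mem_inter.2 ⟨ht, Finset.mem_sdiff.2 ⟨(Finset.mem_sdiff.1 ht).1, htH⟩⟩
                  rw [hemp] at this
                  simp at this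
                have := hmin' (Y \ K) (hcomp K hK) ⟨w, Finset.mem_sdiff.2 ⟨hwY, hwK⟩⟩ hs
                have hxK : x ∈ Y \ K := this ▸ hx
                exact (Finset.mem_sdiff.1 hxK).2 (hCK hxC')
              have e2 : ∀ L, C ⊆ L → ((Y \ K) ∩ L).Nonempty := fun L hL =>
                ⟨w, Finset.mem_inter.2 ⟨Finset.mem_sdiff.2 ⟨hwY, hwK⟩, hL hw⟩⟩
              have e3 : ∀ L, C ⊆ L → ((Y \ H0) ∩ L).Nonempty := fun L hL =>
                ⟨v, Finset.mem_inter.2 ⟨Finset.mem_sdiff.2 ⟨hC.1 hv, hvH⟩, hL hv⟩⟩
              intro A hA B hB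
              rw [Finset.mem_insert, Finset.mem_insert, Finset.mem_filter] at hA hB
              rcases hA with rfl | rfl | hA
              · rcases hB with rfl | rfl | hB
                · exact ⟨w, by simp [hwY, hwK]⟩
                · exact e1
                · exact e2 _ hB.2
              · rcases hB with rfl | rfl | hB
                · rw [Finset.inter_comm]; exact e1
                · exact ⟨v, by simp [hC.1 hv, hvH]⟩
                · exact e3 _ hB.2
              · rcases hB with rfl | rfl | hB
                · rw [Finset.inter_comm]; exact e2 _ hA.2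
                · rw [Finset.inter_comm]; exact e3 _ hA.2
                · exact ⟨w, Finset.mem_inter.2 ⟨hA.2 hw, hB.2 hw⟩⟩)
          have hz1 : z ∈ Y \ K := hz _ (Finset.mem_insert_self _ _)
          have hz2 : z ∈ Y \ H0 := hz _ (Finset.mem_insert_of_mem (Finset.mem_insert_self _ _))
          have hzC : z ∈ C := by
            by_contra hzC
            obtain ⟨L, hL, hCL, hzL⟩ := hC.2 z (Finset.mem_sdiff.1 hz1).1 hzC
            apply hzL
            apply hz
            rw [Finset.mem_insert, Finset.mem_insert, Finset.mem_filter]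
            exact Or.inr (Or.inr ⟨hL, hCL⟩)
          have : z ∈ C' \ H0 := heq ▸ Finset.mem_sdiff.2 ⟨hzC, (Finset.mem_sdiff.1 hz2).2⟩
          exact (Finset.mem_sdiff.1 hz1).2 (hCK (Finset.mem_sdiff.1 this).1)
        intro C hC C' hC' heq
        rw [Finset.mem_coe, Finset.mem_filter] at hC hC'
        exact Finset.Subset.antisymm
          (key C C' hC.1 hC'.1 hC.2.1 hC.2.2 hC'.2.2 heq)
          (key C' C hC'.1 hC.1 hC'.2.1 hC'.2.2 hC.2.2 heq.symm)
    exact lt_of_le_of_lt hle (Finset.card_erase_lt_of_mem hK₀mem)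
  -- counting
  have c1 : (conv Y H).card = ((conv Y H).filter (fun C => C ⊆ H0)).card +
      ((conv Y H).filter (fun C => ¬ C ⊆ H0)).card :=
    (Finset.card_filter_add_card_filter_not _).symm
  have c2 : ((conv Y H).filter (fun C => ¬ C ⊆ H0)).card =
      ((conv Y H).filter (fun C => ¬ C ⊆ H0 ∧ x ∈ C)).card +
      ((conv Y H).filter (fun C => ¬ C ⊆ H0 ∧ x ∉ C)).card := by
    rw [← Finset.card_filter_add_card_filter_not (s := (conv Y H).filter (fun C => ¬ C ⊆ H0))
      (fun C => x ∈ C), Finset.filter_filter, Finset.filter_filter]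
  have c3 : ((conv Y H).filter (fun C => x ∈ C)).card =
      ((conv H0 H').filter (fun C => x ∈ C)).card +
      ((conv Y H).filter (fun C => ¬ C ⊆ H0 ∧ x ∈ C)).card := by
    rw [← hconvH0, ← Finset.card_filter_add_card_filter_not
      (s := (conv Y H).filter (fun C => x ∈ C)) (fun C => C ⊆ H0), Finset.filter_filter,
      Finset.filter_filter, Finset.filter_filter]
    congr 2
    · ext C; simp only [Finset.mem_filter]; tauto
    · ext C; simp only [Finset.mem_filter]; tauto
  rw [hconvH0] at c1
  omega

/-- the members of `unions H` are the complements of the members of `conv univ H` -/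
lemma mem_unions_iff {X : Type} [Fintype X] [DecidableEq X] (H : Finset (Finset X))
    (hc : ComplementClosed H) (U : Finset X) : U ∈ unions H ↔ Uᶜ ∈ conv Finset.univ H := by
  rw [mem_conv]
  simp only [unions, Finset.mem_image, Finset.mem_powerset]
  constructor
  · rintro ⟨S, hS, rfl⟩
    refine ⟨Finset.subset_univ _, fun y _ hy => ?_⟩
    rw [Finset.mem_compl, not_not, Finset.mem_sup] at hy
    obtain ⟨K, hK, hyK⟩ := hy
    refine ⟨Kᶜ, hc K (hS hK), ?_, by rw [Finset.mem_compl, not_not]; exact hyK⟩
    rw [Finset.compl_subset_compl]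
    exact Finset.le_sup (f := id) hK
  · rintro ⟨_, hU⟩
    refine ⟨H.filter (fun K => K ⊆ U), Finset.filter_subset _ _, ?_⟩
    apply Finset.Subset.antisymm
    · apply Finset.sup_le
      intro K hK
      exact (Finset.mem_filter.1 hK).2
    · intro y hy
      obtain ⟨K, hK, hUK, hyK⟩ := hU y (Finset.mem_univ _) (by simp [hy])
      rw [Finset.mem_sup]
      refine ⟨Kᶜ, ?_, by simp [hyK]⟩
      rw [Finset.mem_filter]
      refine ⟨hc K hK, ?_⟩
      intro t ht
      by_contra htU
      rw [Finset.mem_compl] at ht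
      exact ht (hUK (by simp [htU]))

/-- the strict inequality for `unions H` -/
lemma strict_unions {X : Type} [Fintype X] [DecidableEq X] (H : Finset (Finset X))
    (hc : ComplementClosed H) (hh : Helly H)
    (hex4 : ∀ A : Finset X, ∃ K ∈ H, K ≠ ∅ ∧ K ≠ univ ∧ K ≠ A ∧ K ≠ Aᶜ) (G : Finset X)
    (hG : G ∈ H) (hGne : G.Nonempty) :
    ∃ x ∈ G, (unions H).card < 2 * ((unions H).filter (fun U => x ∈ U)).card := by
  obtain ⟨x, hx, hlt⟩ := strict Finset.univ H (fun K _ => Finset.subset_univ K)
    (fun K hK => by rw [← Finset.compl_eq_univ_sdiff]; exact hc K hK) hh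
    (fun A => by
      obtain ⟨K, hK, h1, h2, h3, h4⟩ := hex4 A
      exact ⟨K, hK, h1, h2, h3, by rwa [← Finset.compl_eq_univ_sdiff]⟩) G hG hGne
  have hU := mem_unions_iff H hc
  have hcard : (unions H).card = (conv Finset.univ H).card := by
    apply Finset.card_bij (fun U _ => Uᶜ)
    · intro U hU'; exact (hU U).1 hU'
    · intro U _ V _ h; exact compl_injective h
    · intro C hC; exact ⟨Cᶜ, (hU _).2 (by rwa [compl_compl]), compl_compl C⟩
  have hcard2 : ((unions H).filter (fun U => ¬ x ∈ U)).card =
      ((conv Finset.univ H).filter (fun C => x ∈ C)).card := by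
    apply Finset.card_bij (fun U _ => Uᶜ)
    · intro U hU'
      rw [Finset.mem_filter] at hU' ⊢
      exact ⟨(hU U).1 hU'.1, by simpa using hU'.2⟩
    · intro U _ V _ h; exact compl_injective h
    · intro C hC
      rw [Finset.mem_filter] at hC
      exact ⟨Cᶜ, by
        rw [Finset.mem_filter]
        exact ⟨(hU _).2 (by rw [compl_compl]; exact hC.1), by simpa using hC.2⟩, compl_compl C⟩
  refine ⟨x, hx, ?_⟩
  have := Finset.card_filter_add_card_filter_not (s := unions H) (fun U => x ∈ U)
  omega

/-- **Poonen's strict inequality for union-closed families generated by complement-closed Helly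
families.**  Let the family `H` of subsets of the finite set `X` be closed under complements and
have the Helly property, and let `unions H` be the family of the unions of its members.

1. `unions H` is union-closed.
2. If there is no set `A` such that all members of `H` are among `∅`, `X`, `A`, `Aᶜ`, then every
   nonempty member of `H` contains an element that lies in strictly more than half of the members
   of `unions H`.
3. If `H` is nonempty, `unions H` separates the points of `X` and `unions H` is not the power set of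
   `X`, then this conclusion holds, and some element of `X` lies in strictly more than half of the
   members of `unions H`. -/
theorem result {X : Type} [Fintype X] [DecidableEq X] (H : Finset (Finset X))
    (hc : ComplementClosed H) (hh : Helly H) :
    (∀ A ∈ unions H, ∀ B ∈ unions H, A ∪ B ∈ unions H) ∧
    ((¬ ∃ A : Finset X, ∀ K ∈ H, K = ∅ ∨ K = univ ∨ K = A ∨ K = Aᶜ) →
      ∀ G ∈ H, G.Nonempty →
        ∃ x ∈ G, (unions H).card < 2 * ((unions H).filter (fun U => x ∈ U)).card) ∧
    (H.Nonempty → (∀ x y : X, x ≠ y → ∃ U ∈ unions H, ¬ (x ∈ U ↔ y ∈ U)) →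
      unions H ≠ Finset.univ →
      (∀ G ∈ H, G.Nonempty →
        ∃ x ∈ G, (unions H).card < 2 * ((unions H).filter (fun U => x ∈ U)).card) ∧
      ∃ x : X, (unions H).card < 2 * ((unions H).filter (fun U => x ∈ U)).card) := by
  have h2 : (¬ ∃ A : Finset X, ∀ K ∈ H, K = ∅ ∨ K = univ ∨ K = A ∨ K = Aᶜ) →
      ∀ G ∈ H, G.Nonempty →
        ∃ x ∈ G, (unions H).card < 2 * ((unions H).filter (fun U => x ∈ U)).card := by
    intro hA G hG hGne
    refine strict_unions H hc hh (fun A => ?_) G hG hGne
    by_contra hcon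
    apply hA
    refine ⟨A, fun K hK => ?_⟩
    by_contra hK'
    apply hcon
    refine ⟨K, hK, ?_⟩
    tauto
  refine ⟨(Pool.Agent.Results.MP_9bc572_co.HellyGenerators.result H hc hh).1, h2, ?_⟩
  intro hne hsep hnp
  -- all members of `H` are in `unions H`
  have hmem : ∀ K ∈ H, K ∈ unions H := by
    intro K hK
    simp only [unions, Finset.mem_image, Finset.mem_powerset]
    exact ⟨{K}, by simpa using hK, by simp⟩
  have hempty : (∅ : Finset X) ∈ unions H := by
    simp only [unions, Finset.mem_image, Finset.mem_powerset]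
    exact ⟨∅, Finset.empty_subset _, by simp⟩
  have huc := (Pool.Agent.Results.MP_9bc572_co.HellyGenerators.result H hc hh).1
  have huniv : (univ : Finset X) ∈ unions H := by
    obtain ⟨K, hK⟩ := hne
    have := huc K (hmem K hK) Kᶜ (hmem _ (hc K hK))
    rwa [Finset.union_compl] at this
  have hnoA : ¬ ∃ A : Finset X, ∀ K ∈ H, K = ∅ ∨ K = univ ∨ K = A ∨ K = Aᶜ := by
    rintro ⟨A, hA⟩
    apply hnp
    -- two points on the same side of `A` are not separated
    have hU4 : ∀ U ∈ unions H, ∀ x y : X, (x ∈ A ↔ y ∈ A) → (x ∈ U ↔ y ∈ U) := by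
      intro U hU x y hxy
      simp only [unions, Finset.mem_image, Finset.mem_powerset] at hU
      obtain ⟨S, hS, rfl⟩ := hU
      have key : ∀ x y : X, (x ∈ A ↔ y ∈ A) → x ∈ S.sup id → y ∈ S.sup id := by
        intro x y hxy hx
        rw [Finset.mem_sup] at hx ⊢
        obtain ⟨K, hK, hxK⟩ := hx
        refine ⟨K, hK, ?_⟩
        rcases hA K (hS hK) with rfl | rfl | rfl | rfl
        · simp at hxK
        · simp
        · exact hxy.1 hxK
        · simp only [id, Finset.mem_compl] at hxK ⊢
          exact fun h => hxK (hxy.2 h)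
      exact ⟨key x y hxy, key y x hxy.symm⟩
    have hinj : ∀ x y : X, (x ∈ A ↔ y ∈ A) → x = y := by
      intro x y hxy
      by_contra hne'
      obtain ⟨U, hU, hU'⟩ := hsep x y hne'
      exact hU' (hU4 U hU x y hxy)
    ext Z
    refine ⟨fun _ => Finset.mem_univ _, fun _ => ?_⟩
    -- every set is one of `∅`, `univ`, `A`, `Aᶜ`
    rcases Finset.eq_empty_or_nonempty Z with rfl | ⟨z, hz⟩
    · exact hempty
    by_cases hZu : Z = univ
    · rw [hZu]; exact huniv
    obtain ⟨y, hy⟩ : ∃ y, y ∉ Z := by
      by_contra hcon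
      push Not at hcon
      exact hZu (Finset.eq_univ_iff_forall.2 hcon)
    have hzy : z ≠ y := fun h => hy (h ▸ hz)
    have hnot : ¬ (z ∈ A ↔ y ∈ A) := fun h => hzy (hinj z y h)
    have hall : ∀ t : X, t = z ∨ t = y := by
      intro t
      by_cases ht : (t ∈ A ↔ z ∈ A)
      · exact Or.inl (hinj t z ht)
      · exact Or.inr (hinj t y (by tauto))
    have hZ : Z = {z} := by
      ext t
      rw [Finset.mem_singleton]
      constructor
      · intro ht
        rcases hall t with h | h
        · exact h
        · exact absurd (h ▸ ht) hy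
      · rintro rfl
        exact hz
    obtain ⟨U, hU, hU'⟩ := hsep z y hzy
    simp only [unions, Finset.mem_image, Finset.mem_powerset] at hU
    obtain ⟨S, hS, rfl⟩ := hU
    -- some member of `H` separates `z` and `y`
    have hK : ∃ K ∈ H, ¬ (z ∈ K ↔ y ∈ K) := by
      by_contra hcon
      push Not at hcon
      apply hU'
      rw [Finset.mem_sup, Finset.mem_sup]
      constructor
      · rintro ⟨K, hK, h⟩
        exact ⟨K, hK, (hcon K (hS hK)).1 h⟩
      · rintro ⟨K, hK, h⟩
        exact ⟨K, hK, (hcon K (hS hK)).2 h⟩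
    obtain ⟨K, hK, hKzy⟩ := hK
    have hcase : ∀ L ∈ H, z ∈ L → y ∉ L → Z ∈ unions H := by
      intro L hL h1 h3
      have : Z = L := by
        rw [hZ]
        ext t
        rw [Finset.mem_singleton]
        constructor
        · rintro rfl
          exact h1
        · intro ht
          rcases hall t with h | h
          · exact h
          · exact absurd (h ▸ ht) h3
      rw [this]
      exact hmem L hL
    by_cases hzK : z ∈ K
    · exact hcase K hK hzK (fun h => hKzy ⟨fun _ => h, fun _ => hzK⟩)
    · refine hcase Kᶜ (hc K hK) (by simpa using hzK) ?_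
      rw [Finset.mem_compl, not_not]
      by_contra h
      exact hKzy ⟨fun h' => absurd h' hzK, fun h' => absurd h' h⟩
  have h3 := h2 hnoA
  refine ⟨h3, ?_⟩
  have hex : ∃ K ∈ H, K.Nonempty := by
    by_contra hcon
    push Not at hcon
    apply hnoA
    exact ⟨∅, fun K hK => Or.inl (hcon K hK)⟩
  obtain ⟨K, hK, hKne⟩ := hex
  obtain ⟨x, _, hx⟩ := h3 K hK hKne
  exact ⟨x, hx⟩

end Pool.Agent.Results.MP_75f39d_co.HellyGenerators
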