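import Pool.Agent.Run7.h671.Poonen
import Pool.Agent.Run7.h671.PoBool

/-!
# Poonen's strengthening of the union-closed sets conjecture and Post's lattice

For a set `𝒢` of Boolean operations consider the statement: every nonempty finite family of sets
which is separating, not a power set, and closed under all operations in `𝒢` has an element which
lies in strictly more than half of its members. For a single disjunction `x ∨ y` this is Poonen's
question. We show that for every `𝒢` this statement is false, or true, or equivalent to Poonen's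
question, and we say which: it is false if and only if all operations in `𝒢` are conjunctions or
constants, or none of them is true at two disjoint points, or all of them are affine, or all of them
are self-dual; otherwise it is equivalent to Poonen's question if all operations in `𝒢` are
disjunctions or constants, and true if not.

The main new case of Poonen's question are the separating union-closed families which are closed
under those intersections that contain a nonempty member.
-/

set_option autoImplicit false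

namespace Pool.Agent.Results.MP_75f39d_co.PostClassification

open Finset Pool.Agent.Run7.h671

/-- The Boolean operation `g` applied to the subsets `a 1, …, a k` of the ground set `E`. -/
def apply {E : Type} [Fintype E] [DecidableEq E] {k : ℕ} (g : (Fin k → Bool) → Bool)
    (a : Fin k → Finset E) : Finset E :=
  univ.filter fun e => g (fun j => decide (e ∈ a j)) = true

/-- The family `F` of subsets of `E` is closed under `g`. -/
def Closed {E : Type} [Fintype E] [DecidableEq E] (F : Finset (Finset E)) {k : ℕ}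
    (g : (Fin k → Bool) → Bool) : Prop :=
  ∀ a : Fin k → Finset E, (∀ j, a j ∈ F) → apply g a ∈ F

/-- For any two distinct elements of the union some member contains exactly one of them. -/
def Separating {E : Type} [DecidableEq E] (F : Finset (Finset E)) : Prop :=
  ∀ x ∈ F.sup id, ∀ y ∈ F.sup id, x ≠ y → ∃ S ∈ F, (x ∈ S ∧ y ∉ S) ∨ (y ∈ S ∧ x ∉ S)

/-- Some element of the union lies in strictly more than half of the members. -/
def StrictlyAbundant {E : Type} [DecidableEq E] (F : Finset (Finset E)) : Prop :=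
  ∃ x ∈ F.sup id, F.card < 2 * (F.filter fun S => x ∈ S).card

/-- Every nonempty separating family of subsets of a finite set which is not a power set and is
closed under the operations in `𝒢` has an element lying in strictly more than half of the members. -/
def StrictProperty (𝒢 : Set (Σ k : ℕ, (Fin k → Bool) → Bool)) : Prop :=
  ∀ (E : Type) [Fintype E] [DecidableEq E] (F : Finset (Finset E)), F.Nonempty → Separating F →
    F ≠ (F.sup id).powerset → (∀ g ∈ 𝒢, Closed F g.2) → StrictlyAbundant F

/-- Poonen's question (exactly as in the frozen statement S09547). -/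
def PoonenConjecture : Prop :=
  ∀ A : Finset (Finset ℕ),
    A.Nonempty →
    (∀ X ∈ A, ∀ Y ∈ A, X ∪ Y ∈ A) →
    (∀ x ∈ A.sup id, ∀ y ∈ A.sup id, x ≠ y →
      ∃ S ∈ A, (x ∈ S ∧ y ∉ S) ∨ (y ∈ S ∧ x ∉ S)) →
    A ≠ (A.sup id).powerset →
    ∃ x ∈ A.sup id, 2 * (A.filter (fun S => x ∈ S)).card > A.card

/-- `g` is constant or a conjunction of some of its arguments. -/
def IsConjunction {k : ℕ} (g : (Fin k → Bool) → Bool) : Prop :=
  (∀ a, g a = false) ∨ ∃ J : Finset (Fin k), ∀ a, g a = true ↔ ∀ j ∈ J, a j = true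

/-- `g` is constant or a disjunction of some of its arguments. -/
def IsDisjunction {k : ℕ} (g : (Fin k → Bool) → Bool) : Prop :=
  (∀ a, g a = true) ∨ ∃ J : Finset (Fin k), ∀ a, g a = true ↔ ∃ j ∈ J, a j = true

/-- `g` is not true at two disjoint points (equivalently, `g` applied to sets with at most one element
always gives a set with at most one element). -/
def IsIntersecting {k : ℕ} (g : (Fin k → Bool) → Bool) : Prop :=
  ∀ u v : Fin k → Bool, (∀ j, ¬ (u j = true ∧ v j = true)) → ¬ (g u = true ∧ g v = true)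

/-- `g` is affine over the field with two elements. -/
def IsAffine {k : ℕ} (g : (Fin k → Bool) → Bool) : Prop :=
  ∀ a b c : Fin k → Bool, g (fun j => xor (a j) (xor (b j) (c j))) = xor (g a) (xor (g b) (g c))

/-- `g` commutes with negation. -/
def IsSelfDual {k : ℕ} (g : (Fin k → Bool) → Bool) : Prop :=
  ∀ a : Fin k → Bool, g (fun j => !a j) = !g a

section transfer

variable {E E' : Type} [DecidableEq E] [DecidableEq E'] (f : E ↪ E')

/-- the family of the images -/
def mp (F : Finset (Finset E)) : Finset (Finset E') := F.map (mapEmbedding f).toEmbedding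

variable {f} in
lemma mem_mp {F : Finset (Finset E)} {X : Finset E'} : X ∈ mp f F ↔ ∃ A ∈ F, A.map f = X := by
  unfold mp
  rw [mem_map]
  rfl

variable {f} in
lemma map_mem_mp {F : Finset (Finset E)} {A : Finset E} : A.map f ∈ mp f F ↔ A ∈ F := by
  rw [mem_mp]
  constructor
  · rintro ⟨B, hB, hBA⟩
    rwa [← map_injective f hBA]
  · intro h
    exact ⟨A, h, rfl⟩

lemma sup_mp (F : Finset (Finset E)) : (mp f F).sup id = (F.sup id).map f := by
  ext x
  simp only [mem_sup, mem_map, id_eq]
  constructor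
  · rintro ⟨X, hX, hx⟩
    obtain ⟨A, hA, rfl⟩ := mem_mp.1 hX
    obtain ⟨a, ha, rfl⟩ := mem_map.1 hx
    exact ⟨a, ⟨A, hA, ha⟩, rfl⟩
  · rintro ⟨a, ⟨A, hA, ha⟩, rfl⟩
    exact ⟨A.map f, map_mem_mp.2 hA, mem_map_of_mem f ha⟩

lemma card_mp (F : Finset (Finset E)) : (mp f F).card = F.card := card_map _

lemma card_filter_mp (F : Finset (Finset E)) (x : E) :
    ((mp f F).filter fun S => f x ∈ S).card = (F.filter fun S => x ∈ S).card := by
  unfold mp
  rw [filter_map, card_map]
  congr 1
  ext A
  simp only [mem_filter, Function.comp]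
  refine and_congr_right fun _ => ?_
  show f x ∈ A.map f ↔ x ∈ A
  rw [mem_map']

lemma union_mp {F : Finset (Finset E)} (h : ∀ A ∈ F, ∀ B ∈ F, A ∪ B ∈ F) :
    ∀ A ∈ mp f F, ∀ B ∈ mp f F, A ∪ B ∈ mp f F := by
  intro X hX Y hY
  obtain ⟨A, hA, rfl⟩ := mem_mp.1 hX
  obtain ⟨B, hB, rfl⟩ := mem_mp.1 hY
  rw [← map_union]
  exact map_mem_mp.2 (h A hA B hB)

lemma union_of_mp {F : Finset (Finset E)} (h : ∀ A ∈ mp f F, ∀ B ∈ mp f F, A ∪ B ∈ mp f F) :
    ∀ A ∈ F, ∀ B ∈ F, A ∪ B ∈ F := by
  intro A hA B hB
  have h1 := h _ (map_mem_mp.2 hA) _ (map_mem_mp.2 hB)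
  rw [← map_union] at h1
  exact map_mem_mp.1 h1

lemma sep_mp {F : Finset (Finset E)} (h : Separating F) : Separating (mp f F) := by
  intro x hx y hy hxy
  rw [sup_mp] at hx hy
  obtain ⟨a, ha, rfl⟩ := mem_map.1 hx
  obtain ⟨b, hb, rfl⟩ := mem_map.1 hy
  obtain ⟨S, hS, h1⟩ := h a ha b hb (fun hab => hxy (by rw [hab]))
  refine ⟨S.map f, map_mem_mp.2 hS, ?_⟩
  rw [mem_map', mem_map']
  exact h1

lemma sep_of_mp {F : Finset (Finset E)} (h : Separating (mp f F)) : Separating F := by
  intro x hx y hy hxy
  obtain ⟨S, hS, h1⟩ := h (f x) (by rw [sup_mp]; exact mem_map_of_mem f hx) (f y)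
    (by rw [sup_mp]; exact mem_map_of_mem f hy) (fun h => hxy (f.injective h))
  obtain ⟨A, hA, rfl⟩ := mem_mp.1 hS
  rw [mem_map', mem_map'] at h1
  exact ⟨A, hA, h1⟩

lemma pow_mp {F : Finset (Finset E)} :
    mp f F = ((mp f F).sup id).powerset ↔ F = (F.sup id).powerset := by
  constructor
  · intro h
    ext A
    rw [← map_mem_mp (f := f), h, mem_powerset, mem_powerset, sup_mp, map_subset_map]
  · intro h
    ext X
    rw [mem_powerset, sup_mp, mem_mp]
    constructor
    · rintro ⟨A, hA, rfl⟩
      rw [map_subset_map]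
      exact Finset.le_sup (f := id) hA
    · intro hX
      obtain ⟨A, hA, rfl⟩ := subset_map_iff.1 hX
      refine ⟨A, ?_, rfl⟩
      rw [h]
      exact mem_powerset.2 hA

lemma ab_mp {F : Finset (Finset E)} (h : StrictlyAbundant F) : StrictlyAbundant (mp f F) := by
  obtain ⟨x, hx, h⟩ := h
  refine ⟨f x, by rw [sup_mp]; exact mem_map_of_mem f hx, ?_⟩
  rw [card_mp, card_filter_mp]
  exact h

lemma ab_of_mp {F : Finset (Finset E)} (h : StrictlyAbundant (mp f F)) : StrictlyAbundant F := by
  obtain ⟨x, hx, h⟩ := h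
  rw [sup_mp] at hx
  obtain ⟨a, ha, rfl⟩ := mem_map.1 hx
  rw [card_mp, card_filter_mp] at h
  exact ⟨a, ha, h⟩

end transfer

/-- Poonen's strict inequality for separating union-closed families closed under those
intersections which contain a nonempty member. -/
theorem part_one (E : Type) [DecidableEq E] (F : Finset (Finset E)) (hne : F.Nonempty)
    (hU : ∀ A ∈ F, ∀ B ∈ F, A ∪ B ∈ F)
    (hI : ∀ B ∈ F, ∀ C ∈ F, (∃ A ∈ F, A.Nonempty ∧ A ⊆ B ∩ C) → B ∩ C ∈ F)
    (hsep : Separating F) (hP : F ≠ (F.sup id).powerset) : StrictlyAbundant F :=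
  PO.poonen_filter F hne hU hI hsep hP

section aux

variable {E : Type} [Fintype E] [DecidableEq E]

/-- the membership matrix -/
def mat (F : Finset (Finset E)) : F → E → Bool := fun A e => decide (e ∈ A.1)

lemma closed_mat {F : Finset (Finset E)} {k : ℕ} {g : (Fin k → Bool) → Bool}
    (h : Closed F g) : ClosedUnder g (mat F) := by
  intro x
  refine ⟨⟨apply g (fun j => (x j).1), h _ (fun j => (x j).2)⟩, fun e => ?_⟩
  simp only [mat, apply, mem_filter, mem_univ, true_and]
  cases g (fun j => decide (e ∈ (x j).1)) <;> simp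

lemma apply_disj {k : ℕ} {g : (Fin k → Bool) → Bool} {J : Finset (Fin k)}
    (hJ : ∀ a, g a = true ↔ ∃ j ∈ J, a j = true) (a : Fin k → Finset E) :
    apply g a = J.sup a := by
  ext e
  simp only [apply, mem_filter, mem_univ, true_and]
  rw [Finset.mem_sup, hJ]
  simp

/-- a family closed under a disjunction which is not a conjunction is union-closed -/
lemma union_of_disj {F : Finset (Finset E)} {k : ℕ} {g : (Fin k → Bool) → Bool}
    (hD : IsDisjunction g) (hC : ¬ IsConjunction g) (hcl : Closed F g) :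
    ∀ A ∈ F, ∀ B ∈ F, A ∪ B ∈ F := by
  rcases hD with h1 | ⟨J, hJ⟩
  · exact absurd (Or.inr ⟨∅, fun a => ⟨fun _ j hj => absurd hj (Finset.notMem_empty j),
      fun _ => h1 a⟩⟩) hC
  · have hJ2 : ∃ j₁ ∈ J, ∃ j₂ ∈ J, j₁ ≠ j₂ := by
      by_contra hcon
      push Not at hcon
      apply hC
      rcases J.eq_empty_or_nonempty with rfl | ⟨j, hj⟩
      · left
        intro a
        have := hJ a
        simpa using this
      · right
        refine ⟨J, fun a => ?_⟩
        rw [hJ]
        constructor
        · rintro ⟨i, hi, hai⟩ j' hj'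
          rw [hcon j' hj' i hi]
          exact hai
        · intro h
          exact ⟨j, hj, h j hj⟩
    obtain ⟨j₁, hj₁, j₂, hj₂, hne'⟩ := hJ2
    intro A hA B hB
    have h1 := hcl (fun j => if j = j₁ then A else B) (fun j => by
      split_ifs
      · exact hA
      · exact hB)
    have h2 : apply g (fun j => if j = j₁ then A else B) = A ∪ B := by
      ext e
      simp only [apply, mem_filter, mem_univ, true_and, mem_union]
      rw [hJ]
      constructor
      · rintro ⟨j, _, h⟩
        have h' := of_decide_eq_true h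
        split_ifs at h'
        · exact Or.inl h'
        · exact Or.inr h'
      · rintro (h | h)
        · exact ⟨j₁, hj₁, by simp [h]⟩
        · exact ⟨j₂, hj₂, by simp [hne'.symm, h]⟩
    rw [← h2]
    exact h1

end aux

/-- the true cases -/
theorem part_true (𝒢 : Set (Σ k : ℕ, (Fin k → Bool) → Bool))
    (hD : ∃ g ∈ 𝒢, ¬ IsDisjunction g.2) (hC : ∃ g ∈ 𝒢, ¬ IsConjunction g.2)
    (hN : ∃ g ∈ 𝒢, ¬ IsIntersecting g.2) (hA : ∃ g ∈ 𝒢, ¬ IsAffine g.2)
    (hS : ∃ g ∈ 𝒢, ¬ IsSelfDual g.2) : StrictProperty 𝒢 := by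
  classical
  intro E _ _ F hne hsep hpow hcl
  obtain ⟨g₁, hg₁, h₁⟩ := hD
  obtain ⟨g₂, hg₂, h₂⟩ := hC
  obtain ⟨g₃, hg₃, h₃⟩ := hN
  obtain ⟨g₄, hg₄, h₄⟩ := hA
  obtain ⟨g₅, hg₅, h₅⟩ := hS
  have hne' := hne
  obtain ⟨A₀, hA₀⟩ := hne'
  haveI : Nonempty F := ⟨⟨A₀, hA₀⟩⟩
  have hN' : ∃ u v : Fin g₃.1 → Bool, (∀ j, ¬ (u j = true ∧ v j = true)) ∧ g₃.2 u = true ∧
      g₃.2 v = true := by
    unfold IsIntersecting at h₃
    push Not at h₃
    obtain ⟨u, v, h4, h5, h6⟩ := h₃
    exact ⟨u, v, fun j hj => h4 j hj.1 hj.2, h5, h6⟩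
  have h := PB.or_rows (mat F) (closed_mat (hcl _ hg₃)) (closed_mat (hcl _ hg₂))
    (closed_mat (hcl _ hg₄)) (closed_mat (hcl _ hg₅)) hN' h₂ h₄ h₅
  have hd := FB.semi_distr (mat F) g₁.2 (closed_mat (hcl _ hg₁)) h₁ h
  have hU : ∀ A ∈ F, ∀ B ∈ F, A ∪ B ∈ F := by
    intro A hA B hB
    obtain ⟨c, hc⟩ := h ⟨A, hA⟩ ⟨B, hB⟩
    have : c.1 = A ∪ B := by
      ext y
      have h1 := hc y
      simp only [mat] at h1
      rw [mem_union]
      by_cases h2 : y ∈ A <;> by_cases h3 : y ∈ B <;> simp [h2, h3] at h1 ⊢ <;> exact h1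
    rw [← this]
    exact c.2
  apply part_one E F hne hU _ hsep hpow
  rintro B hB C hC ⟨A, hA, -, hABC⟩
  obtain ⟨d, hd⟩ := hd ⟨A, hA⟩ ⟨B, hB⟩ ⟨C, hC⟩
  have : d.1 = B ∩ C := by
    ext y
    have h1 := hd y
    simp only [mat] at h1
    rw [mem_inter]
    by_cases h2 : y ∈ A
    · have h3 := mem_inter.1 (hABC h2)
      simp [h2] at h1
      exact ⟨fun _ => h3, fun _ => h1⟩
    · by_cases h3 : y ∈ B <;> by_cases h4 : y ∈ C <;> simp [h2, h3, h4] at h1 ⊢ <;> exact h1
  rw [← this]
  exact d.2

/-- the false cases -/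
theorem part_false (𝒢 : Set (Σ k : ℕ, (Fin k → Bool) → Bool))
    (h : (∀ g ∈ 𝒢, IsConjunction g.2) ∨ (∀ g ∈ 𝒢, IsIntersecting g.2) ∨
      (∀ g ∈ 𝒢, IsAffine g.2) ∨ (∀ g ∈ 𝒢, IsSelfDual g.2)) : ¬ StrictProperty 𝒢 := by
  classical
  intro hP
  rcases h with h | h | h | h
  · let F : Finset (Finset (Fin 3)) := {∅, {0}, {1}, {2}, univ}
    have hF : ∀ A ∈ F, ∀ B ∈ F, A ∩ B ∈ F := by decide
    obtain ⟨e, -, he⟩ := hP (Fin 3) F ⟨∅, by decide⟩ (by unfold Separating; decide) (by decide) (by
      rintro ⟨k, g⟩ hg a ha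
      rcases h _ hg with h1 | ⟨J, hJ⟩
      · have : apply g a = ∅ := by
          unfold apply
          apply filter_false_of_mem
          intro e _
          simp only at h1
          rw [h1]
          decide
        rw [this]
        decide
      · have : apply g a = J.inf a := by
          ext e
          simp only [apply, mem_filter, mem_univ, true_and]
          rw [Finset.mem_inf]
          simp only at hJ
          rw [hJ]
          simp
        rw [this]
        have key : ∀ J : Finset (Fin k), J.inf a ∈ F := by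
          intro J
          induction J using Finset.induction_on with
          | empty =>
            rw [Finset.inf_empty]
            decide
          | insert j s _ ih =>
            rw [Finset.inf_insert]
            exact hF _ (ha j) _ ih
        exact key J)
    revert he
    revert e
    decide
  · let F : Finset (Finset (Fin 2)) := {∅, {0}, {1}}
    obtain ⟨e, -, he⟩ := hP (Fin 2) F ⟨∅, by decide⟩ (by unfold Separating; decide) (by decide) (by
      rintro ⟨k, g⟩ hg a ha
      have h1 := h _ hg (fun j => decide ((0 : Fin 2) ∈ a j)) (fun j => decide ((1 : Fin 2) ∈ a j))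
        (by
          intro j
          have h2 : ∀ A ∈ F, ¬ (decide ((0 : Fin 2) ∈ A) = true ∧ decide ((1 : Fin 2) ∈ A) = true) := by
            decide
          exact h2 _ (ha j))
      have h3 : ∀ B : Finset (Fin 2), ¬ ((0 : Fin 2) ∈ B ∧ (1 : Fin 2) ∈ B) → B ∈ F := by decide
      apply h3
      intro h4
      apply h1
      simpa [apply] using h4)
    revert he
    revert e
    decide
  · let F : Finset (Finset (Fin 4)) := univ.filter fun A => xor (decide (0 ∈ A))
      (xor (decide (1 ∈ A)) (decide (2 ∈ A))) = decide (3 ∈ A)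
    obtain ⟨e, -, he⟩ := hP (Fin 4) F ⟨∅, by decide⟩ (by unfold Separating; decide) (by decide) (by
      rintro ⟨k, g⟩ hg a ha
      have h1 := h _ hg (fun j => decide ((0 : Fin 4) ∈ a j)) (fun j => decide ((1 : Fin 4) ∈ a j))
        (fun j => decide ((2 : Fin 4) ∈ a j))
      have h2 : (fun j => xor (decide ((0 : Fin 4) ∈ a j)) (xor (decide ((1 : Fin 4) ∈ a j))
          (decide ((2 : Fin 4) ∈ a j)))) = fun j => decide ((3 : Fin 4) ∈ a j) := by
        funext j
        exact (mem_filter.1 (ha j)).2
      rw [h2] at h1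
      refine mem_filter.2 ⟨mem_univ _, ?_⟩
      have h3 : ∀ e : Fin 4, decide (e ∈ apply g a) = g (fun j => decide (e ∈ a j)) := by
        intro e
        simp only [apply, mem_filter, mem_univ, true_and]
        cases g (fun j => decide (e ∈ a j)) <;> simp
      rw [h3, h3, h3, h3]
      exact h1.symm)
    revert he
    revert e
    decide
  · let F : Finset (Finset (Fin 2)) := {{0}, {1}}
    obtain ⟨e, -, he⟩ := hP (Fin 2) F ⟨{0}, by decide⟩ (by unfold Separating; decide) (by decide) (by
      rintro ⟨k, g⟩ hg a ha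
      have h1 := h _ hg (fun j => decide ((0 : Fin 2) ∈ a j))
      have h2 : (fun j => !decide ((0 : Fin 2) ∈ a j)) = fun j => decide ((1 : Fin 2) ∈ a j) := by
        funext j
        have h3 : ∀ A ∈ F, (!decide ((0 : Fin 2) ∈ A)) = decide ((1 : Fin 2) ∈ A) := by decide
        exact h3 _ (ha j)
      rw [h2] at h1
      have h4 : ∀ B : Finset (Fin 2), decide ((1 : Fin 2) ∈ B) = !decide ((0 : Fin 2) ∈ B) →
          B ∈ F := by decide
      apply h4
      have h3 : ∀ e : Fin 2, decide (e ∈ apply g a) = g (fun j => decide (e ∈ a j)) := by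
        intro e
        simp only [apply, mem_filter, mem_univ, true_and]
        cases g (fun j => decide (e ∈ a j)) <;> simp
      rw [h3, h3]
      exact h1)
    revert he
    revert e
    decide

/-- adding the empty set -/
lemma ab_of_insert {E : Type} [DecidableEq E] {F : Finset (Finset E)} (hne : F.Nonempty)
    (hU : ∀ A ∈ F, ∀ B ∈ F, A ∪ B ∈ F) (hsep : Separating F) (hpow : F ≠ (F.sup id).powerset)
    (h : insert ∅ F ≠ ((insert ∅ F).sup id).powerset → StrictlyAbundant (insert ∅ F)) :
    StrictlyAbundant F := by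
  classical
  have hsup : (insert ∅ F).sup id = F.sup id := by
    rw [sup_insert]
    simp
  by_cases h0 : insert ∅ F = ((insert ∅ F).sup id).powerset
  · rw [hsup] at h0
    refine part_one E F hne hU ?_ hsep hpow
    rintro B hB C hC ⟨A, hA, hAne, hABC⟩
    have h1 : B ∩ C ∈ insert ∅ F := by
      rw [h0, mem_powerset]
      exact inter_subset_left.trans (Finset.le_sup (f := id) hB)
    rcases mem_insert.1 h1 with h2 | h2
    · rw [h2] at hABC
      exact absurd (subset_empty.1 hABC) (Finset.nonempty_iff_ne_empty.1 hAne)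
    · exact h2
  · obtain ⟨x, hx, h1⟩ := h h0
    rw [hsup] at hx
    refine ⟨x, hx, ?_⟩
    have h2 : ((insert ∅ F).filter fun S => x ∈ S) = F.filter fun S => x ∈ S := by
      ext S
      simp only [mem_filter, mem_insert]
      constructor
      · rintro ⟨rfl | h3, h4⟩
        · simp at h4
        · exact ⟨h3, h4⟩
      · rintro ⟨h3, h4⟩
        exact ⟨Or.inr h3, h4⟩
    rw [h2] at h1
    exact (card_le_card (subset_insert _ _)).trans_lt h1

/-- the equivalent cases -/
theorem part_equiv (𝒢 : Set (Σ k : ℕ, (Fin k → Bool) → Bool))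
    (hD : ∀ g ∈ 𝒢, IsDisjunction g.2) (hC : ∃ g ∈ 𝒢, ¬ IsConjunction g.2) :
    StrictProperty 𝒢 ↔ PoonenConjecture := by
  classical
  constructor
  · intro hP A hAne hA hsep hpow
    let U := A.sup id
    have hUA : U ∈ A := FK.sup_mem hA A hAne (subset_refl _)
    have hsub : ∀ X ∈ A, X ⊆ U := fun X hX => Finset.le_sup (f := id) hX
    let f : {x // x ∈ U} ↪ ℕ := Function.Embedding.subtype _
    have hpre : ∀ X, X ⊆ U → ∃ B : Finset {x // x ∈ U}, B.map f = X := by
      intro X hX
      refine ⟨X.subtype (· ∈ U), ?_⟩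
      rw [subtype_map]
      apply filter_true_of_mem
      intro x hx
      exact hX hx
    let F₀ : Finset (Finset {x // x ∈ U}) := univ.filter fun B => B.map f ∈ A
    have hF₀ : mp f F₀ = A := by
      ext X
      rw [mem_mp]
      constructor
      · rintro ⟨B, hB, rfl⟩
        exact (mem_filter.1 hB).2
      · intro hX
        obtain ⟨B, rfl⟩ := hpre X (hsub X hX)
        exact ⟨B, mem_filter.2 ⟨mem_univ _, hX⟩, rfl⟩
    have hne₀ : F₀.Nonempty := by
      rw [← card_pos, ← card_mp f, hF₀, card_pos]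
      exact hAne
    have hun₀ : ∀ B ∈ F₀, ∀ C ∈ F₀, B ∪ C ∈ F₀ := union_of_mp f (by rw [hF₀]; exact hA)
    have hsep₀ : Separating F₀ := sep_of_mp f (by rw [hF₀]; exact hsep)
    have hpow₀ : F₀ ≠ (F₀.sup id).powerset := by
      rw [Ne, ← pow_mp f, hF₀]
      exact hpow
    have hfin : StrictlyAbundant F₀ := by
      apply ab_of_insert hne₀ hun₀ hsep₀ hpow₀
      intro h0
      have hun : ∀ B ∈ insert ∅ F₀, ∀ C ∈ insert ∅ F₀, B ∪ C ∈ insert ∅ F₀ := by
        intro B hB C hC
        rcases mem_insert.1 hB with rfl | hB'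
        · rwa [empty_union]
        rcases mem_insert.1 hC with rfl | hC'
        · rwa [union_empty]
        exact mem_insert_of_mem (hun₀ B hB' C hC')
      refine hP _ (insert ∅ F₀) ⟨∅, mem_insert_self _ _⟩ ?_ h0 ?_
      · intro x hx y hy hxy
        have hsup : (insert ∅ F₀).sup id = F₀.sup id := by
          rw [sup_insert]
          simp
        rw [hsup] at hx hy
        obtain ⟨S, hS, h1⟩ := hsep₀ x hx y hy hxy
        exact ⟨S, mem_insert_of_mem hS, h1⟩
      · rintro ⟨k, g⟩ hg a ha
        rcases hD _ hg with h1 | ⟨J, hJ⟩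
        · have h2 : apply g a = univ := by
            unfold apply
            apply filter_true_of_mem
            intro e _
            exact h1 _
          simp only
          rw [h2]
          apply mem_insert_of_mem
          refine mem_filter.2 ⟨mem_univ _, ?_⟩
          have h3 : (univ : Finset {x // x ∈ U}).map f = U := by
            ext x
            simp [f]
          rw [h3]
          exact hUA
        · simp only at hJ ⊢
          rw [apply_disj hJ]
          have key : ∀ J : Finset (Fin k), J.sup a ∈ insert ∅ F₀ := by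
            intro J
            induction J using Finset.induction_on with
            | empty =>
              rw [Finset.sup_empty]
              exact mem_insert_self _ _
            | insert j s _ ih =>
              rw [Finset.sup_insert]
              exact hun _ (ha j) _ ih
          exact key J
    have h2 := ab_mp f hfin
    rw [hF₀] at h2
    exact h2
  · intro hPo E _ _ F hne hsep hpow hcl
    obtain ⟨⟨k, g⟩, hg, hgC⟩ := hC
    have hun := union_of_disj (hD _ hg) hgC (hcl _ hg)
    let f : E ↪ ℕ := (Fintype.equivFin E).toEmbedding.trans Fin.valEmbedding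
    apply ab_of_mp f
    refine hPo (mp f F) ?_ (union_mp f hun) (sep_mp f hsep) ?_
    · rw [← card_pos, card_mp, card_pos]
      exact hne
    · intro h
      exact hpow ((pow_mp f).1 h)

/-- **Poonen's strengthening of the union-closed sets conjecture and Post's lattice.** -/
theorem result :
    (∀ (E : Type) [DecidableEq E] (F : Finset (Finset E)), F.Nonempty →
      (∀ A ∈ F, ∀ B ∈ F, A ∪ B ∈ F) →
      (∀ B ∈ F, ∀ C ∈ F, (∃ A ∈ F, A.Nonempty ∧ A ⊆ B ∩ C) → B ∩ C ∈ F) →
      Separating F → F ≠ (F.sup id).powerset → StrictlyAbundant F) ∧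
    ∀ 𝒢 : Set (Σ k : ℕ, (Fin k → Bool) → Bool),
      ((∀ g ∈ 𝒢, IsConjunction g.2) ∨ (∀ g ∈ 𝒢, IsIntersecting g.2) ∨ (∀ g ∈ 𝒢, IsAffine g.2) ∨
        (∀ g ∈ 𝒢, IsSelfDual g.2) → ¬ StrictProperty 𝒢) ∧
      (¬ ((∀ g ∈ 𝒢, IsConjunction g.2) ∨ (∀ g ∈ 𝒢, IsIntersecting g.2) ∨
        (∀ g ∈ 𝒢, IsAffine g.2) ∨ (∀ g ∈ 𝒢, IsSelfDual g.2)) →
        ((∀ g ∈ 𝒢, IsDisjunction g.2) → (StrictProperty 𝒢 ↔ PoonenConjecture)) ∧
        ((∃ g ∈ 𝒢, ¬ IsDisjunction g.2) → StrictProperty 𝒢)) := by
  refine ⟨fun E _ F => part_one E F, fun 𝒢 => ⟨part_false 𝒢, fun h => ?_⟩⟩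
  push Not at h
  obtain ⟨h1, h2, h3, h4⟩ := h
  exact ⟨fun hD => part_equiv 𝒢 hD h1, fun hD => part_true 𝒢 hD h1 h2 h3 h4⟩

end Pool.Agent.Results.MP_75f39d_co.PostClassification
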