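import Pool.Agent.Run7.h223.UCSmall

set_option autoImplicit false

/-!
# Poonen's strengthening of the union-closed sets conjecture for families of small VC dimension

For every `d`, every union-closed family of VC dimension `d` with at least `exp (exp (10^(3d+7)))` members has an
element in strictly more than half of its members; the surplus is at least `log log |A| / (5 log |A|)` times
the number of members.  In particular, for every `d` there are, up to renaming the elements, only finitely many
separating families of VC dimension `d` for which Poonen's inequality could fail.

Proof.  Read the members along a fixed order of the elements.  (1) `Run7.h223.Tree`, `Tree2`: for a weighted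
binary tree with no order-shattered `(d+1)`-set of levels, the sum over the levels of the square of the sum of
the geometric means of the two masses below the nodes of the level is at most `K_d` times the square of the
total mass, `K_d = 10^(3d+4)`.  So the loss in the entropy inequality
`H(a ∪ b) ≥ ∑ (P(i ∉ a) h_i(b) + P(i ∉ b) h_i(a)) - loss` is at most `2 K_d` for independent uniform members
`a, b` of any two subfamilies.  (2) `Run7.h223.UCSmall`: comparison of the uniform law with the law of the union of
two random members.
-/

namespace Pool.Agent.Results.MP_75f39d_co.SmallVCDim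

/-- Let `A` be a finite union-closed family of finite sets with `10 ^ (3 d + 7) ≤ log log |A|`, where `d` is the
VC dimension of `A`.  Then some element `i` of the universe lies in strictly more than half of the members, and even
in at least `(1/2 + log log |A| / (5 log |A|)) |A|` members. -/
theorem result (A : Finset (Finset ℕ)) (huc : ∀ X ∈ A, ∀ Y ∈ A, X ∪ Y ∈ A)
    (h : (10 : ℝ) ^ (3 * A.vcDim + 7) ≤ Real.log (Real.log A.card)) :
    ∃ i ∈ A.sup id, A.card < 2 * (A.filter (fun X => i ∈ X)).card ∧
      (1 / 2 + Real.log (Real.log A.card) / (5 * Real.log A.card)) * (A.card : ℝ) ≤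
        ((A.filter (fun X => i ∈ X)).card : ℝ) := by
  obtain ⟨i, hi⟩ := Run7.h223.UC.uc_small A huc h
  have h0 : 0 < Real.log (Real.log A.card) := lt_of_lt_of_le (by positivity) h
  have h1 : 0 < Real.log A.card := by
    by_contra hn
    push Not at hn
    have h2 : Real.log A.card = 0 ∨ Real.log A.card < 0 := by
      rcases hn.lt_or_eq with h' | h'
      · exact Or.inr h'
      · exact Or.inl h'
    rcases h2 with h2 | h2
    · rw [h2] at h0; simp at h0
    · have h3 : (0 : ℝ) ≤ Real.log A.card := Real.log_natCast_nonneg _
      linarith
  have hA : 0 < A.card := by
    rcases Nat.eq_zero_or_pos A.card with h' | h'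
    · rw [h'] at h1; simp at h1
    · exact h'
  have hAr : (0 : ℝ) < A.card := by exact_mod_cast hA
  have hs : 0 < Real.log (Real.log A.card) / (5 * Real.log A.card) := by positivity
  have hlt : (A.card : ℝ) < 2 * ((A.filter (fun X => i ∈ X)).card : ℝ) := by nlinarith
  have hlt' : A.card < 2 * (A.filter (fun X => i ∈ X)).card := by exact_mod_cast hlt
  refine ⟨i, ?_, hlt', hi⟩
  obtain ⟨S, hS⟩ := Finset.card_pos.mp (show 0 < (A.filter (fun X => i ∈ X)).card by omega)
  rw [Finset.mem_filter] at hS
  exact Finset.mem_sup.mpr ⟨S, hS.1, hS.2⟩

end Pool.Agent.Results.MP_75f39d_co.SmallVCDim
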